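import Mathlib
import Pool.Agent.MP_9a65c4_lc.Functional

namespace Pool.Agent.MP_ac9d16_lc

open Nat.Partrec (Code)
open Filter

open Classical in
/-- The characteristic function of a set of natural numbers. -/
noncomputable def chi (X : Set ℕ) (n : ℕ) : ℕ := if n ∈ X then 1 else 0

/-- The list of the first `k` values of `p`. -/
def seg (p : ℕ → ℕ) (k : ℕ) : List ℕ := (List.range k).map p

/-- The `e`-th Turing functional with oracle `p` on input `n`: the output of the `e`-th program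
on `(n, first k values of p)` for the first pair `(k, t)` such that it halts within `t` steps. -/
def Phi (p : ℕ → ℕ) (e n : ℕ) : Part ℕ :=
  Nat.rfindOpt fun s => Code.evaln s.unpair.2 (Denumerable.ofNat Code e)
    (Nat.pair n (Encodable.encode (seg p s.unpair.1)))

/-- The Turing jump. -/
def jump (X : Set ℕ) : Set ℕ := {e | (Phi (chi X) e e).Dom}

/-- The set `X` computes the total function `f`. -/
def Computes (X : Set ℕ) (f : ℕ → ℕ) : Prop :=
  TuringReducible (fun n => Part.some (f n)) (fun n => Part.some (chi X n))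

/-! The functions `Phi p e` are exactly the functions that Mathlib calls recursive in `p`. -/

open Pool.Agent.MP_9a65c4_lc

theorem seg_eq_pre (p : ℕ → ℕ) (k : ℕ) : seg p k = pre p k := rfl

theorem mem_rfindOpt_iff {f : ℕ → Option ℕ} {v : ℕ} :
    v ∈ Nat.rfindOpt f ↔ ∃ s, f s = some v ∧ ∀ r < s, f r = none := by
  unfold Nat.rfindOpt
  simp only [Part.mem_bind_iff, Nat.mem_rfind, Part.mem_coe, Option.mem_def]
  constructor
  · rintro ⟨s, ⟨-, h2⟩, h3⟩
    refine ⟨s, h3, fun r hr => ?_⟩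
    have := h2 hr
    cases h : f r with
    | none => rfl
    | some a => simp [h] at this
  · rintro ⟨s, h1, h2⟩
    exact ⟨s, ⟨by simp [h1], fun {m} hm => by simp [h2 m hm]⟩, h1⟩

theorem exists_tf {p : ℕ → ℕ} {f : ℕ →. ℕ}
    (hf : Nat.RecursiveIn {fun n => Part.some (p n)} f) :
    ∃ F, TuringFunctional F ∧ F p = f := by
  induction hf with
  | zero => exact ⟨_, .zero, rfl⟩
  | succ => exact ⟨_, .succ, rfl⟩
  | left => exact ⟨_, .left, rfl⟩
  | right => exact ⟨_, .right, rfl⟩
  | oracle g hg => exact ⟨_, .oracle, (Set.mem_singleton_iff.1 hg).symm⟩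
  | pair _ _ ih1 ih2 =>
    obtain ⟨F, hF, rfl⟩ := ih1
    obtain ⟨G, hG, rfl⟩ := ih2
    exact ⟨_, .pair hF hG, rfl⟩
  | comp _ _ ih1 ih2 =>
    obtain ⟨F, hF, rfl⟩ := ih1
    obtain ⟨G, hG, rfl⟩ := ih2
    exact ⟨_, .comp hF hG, rfl⟩
  | prec _ _ ih1 ih2 =>
    obtain ⟨F, hF, rfl⟩ := ih1
    obtain ⟨G, hG, rfl⟩ := ih2
    exact ⟨_, .prec hF hG, rfl⟩
  | rfind _ ih =>
    obtain ⟨F, hF, rfl⟩ := ih
    exact ⟨_, .rfind hF, rfl⟩

theorem recursiveIn_of_tf {F : (ℕ → ℕ) → ℕ →. ℕ} (hF : TuringFunctional F) (p : ℕ → ℕ) :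
    Nat.RecursiveIn {fun n => Part.some (p n)} (F p) := by
  induction hF with
  | zero => exact .zero
  | succ => exact .succ
  | left => exact .left
  | right => exact .right
  | oracle => exact .oracle _ rfl
  | pair _ _ ih1 ih2 => exact .pair ih1 ih2
  | comp _ _ ih1 ih2 => exact .comp ih1 ih2
  | prec _ _ ih1 ih2 => exact .prec ih1 ih2
  | rfind _ ih => exact .rfind ih

theorem exists_index_of_tf {F : (ℕ → ℕ) → ℕ →. ℕ} (hF : TuringFunctional F) :
    ∃ e, ∀ p, Phi p e = F p := by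
  obtain ⟨G, hG⟩ := exists_approx hF
  have h1 : Partrec fun m : ℕ => G (Denumerable.ofNat (List ℕ) m.unpair.2) m.unpair.1 :=
    hG.part.comp (Primrec.to_comp (by fun_prop)) (Primrec.to_comp (by fun_prop))
  obtain ⟨c, hc⟩ := Code.exists_code.1 (Partrec.nat_iff.1 h1)
  have hc' : ∀ n τ, c.eval (Nat.pair n (Encodable.encode τ)) = G τ n := by
    intro n τ
    rw [hc]
    simp
  refine ⟨Encodable.encode c, fun p => funext fun n => ?_⟩
  have hs : ∀ v, v ∈ Phi p (Encodable.encode c) n → v ∈ F p n := by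
    intro v hv
    obtain ⟨s, hs⟩ := Nat.rfindOpt_spec hv
    rw [Denumerable.ofNat_encode] at hs
    have := Code.evaln_sound hs
    rw [hc'] at this
    exact hG.sound _ _ _ _ this
  refine Part.ext fun v => ⟨hs v, fun hv => ?_⟩
  obtain ⟨k, hk⟩ := (hG.complete p n v hv).exists
  rw [← hc'] at hk
  obtain ⟨t, ht⟩ := Code.evaln_complete.1 hk
  have hd : (Phi p (Encodable.encode c) n).Dom :=
    Nat.rfindOpt_dom.2 ⟨Nat.pair k t, v, by simpa [seg_eq_pre] using ht⟩
  have h2 := hs _ (Part.get_mem hd)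
  rw [Part.mem_unique hv h2]
  exact Part.get_mem hd

theorem tf_Phi (e : ℕ) : TuringFunctional fun p => Phi p e := by
  let H : ℕ → List ℕ → ℕ := fun m τ => Encodable.encode
    (Code.evaln m.unpair.2.unpair.2 (Denumerable.ofNat Code e)
      (Nat.pair m.unpair.1 (Encodable.encode τ)))
  have hH : Computable₂ H := by
    refine Primrec.to_comp (Primrec.encode.comp (Code.primrec_evaln.comp
      (g := fun a : ℕ × List ℕ => ((a.1.unpair.2.unpair.2, Denumerable.ofNat Code e),
        Nat.pair a.1.unpair.1 (Encodable.encode a.2))) (by fun_prop)))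
  have h1 := tf_bounded hH (b := fun m => m.unpair.2.unpair.1) (Primrec.to_comp (by fun_prop))
  have h2 := TuringFunctional.comp (tf_of_computable (f := fun m => 1 - m)
    (Primrec.to_comp (by fun_prop))) h1
  have h3 := TuringFunctional.pair (tf_of_computable Computable.id) (TuringFunctional.rfind h2)
  have h4 := TuringFunctional.comp (tf_of_computable (f := fun m => m - 1)
    (Primrec.to_comp (by fun_prop))) (TuringFunctional.comp h1 h3)
  refine tf_of_eq h4 fun p n => Part.ext fun v => ?_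
  have hz : ∀ o : Option ℕ, 1 - Encodable.encode o = 0 ↔ o ≠ none := by
    intro o
    cases o <;> simp
  simp only [Phi, mem_rfindOpt_iff, Seq.seq, Part.map_eq_map, Part.bind_eq_bind, Part.bind_some,
    Part.map_some, Part.mem_bind_iff, Part.mem_map_iff, Part.mem_some_iff, Nat.mem_rfind,
    Nat.unpair_pair, id, H, hz, seg_eq_pre]
  constructor
  · rintro ⟨_, ⟨_, ⟨s, ⟨h1, h2⟩, rfl⟩, rfl⟩, rfl⟩
    refine ⟨s, ?_, fun r hr => by simpa using h2 hr⟩
    simp only [Nat.unpair_pair]
    generalize Code.evaln _ _ _ = o at h1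
    cases o with
    | none => simp at h1
    | some a => simp
  · rintro ⟨s, h1, h2⟩
    exact ⟨_, ⟨_, ⟨s, ⟨by simp [h1], fun {m} hm => by simp [h2 m hm]⟩, rfl⟩, rfl⟩, by simp [h1]⟩

/-- `Phi p` enumerates exactly the functions recursive in `p`. -/
theorem turingReducible_iff_exists_Phi (p : ℕ → ℕ) (f : ℕ →. ℕ) :
    TuringReducible f (fun n => Part.some (p n)) ↔ ∃ e, Phi p e = f := by
  constructor
  · intro h
    obtain ⟨F, hF, rfl⟩ := exists_tf (RecursiveIn.iff_nat.1 h)
    obtain ⟨e, he⟩ := exists_index_of_tf hF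
    exact ⟨e, he p⟩
  · rintro ⟨e, rfl⟩
    exact RecursiveIn.iff_nat.2 (recursiveIn_of_tf (tf_Phi e) p)

end Pool.Agent.MP_ac9d16_lc
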