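import Mathlib
import Pool.Agent.Mg.F40fdec.G80237a

/-! A two-colouring below the halting set all of whose homogeneous sets have a DNC jump. -/

namespace Pool.Agent.MP_ac9d16_lc.F

open Filter Pool.Agent.MP_9a65c4_lc Pool.Agent.MP_40fdec_lc
open D (rtrans rseg rmap sigma1 num num_lt bt_num)
open T (cv pp_cv epo ep pr_epo find_le find_spec find_min ep_le ep_mono ep_lim seg_seg cv_seg
  dom_of_cv cv_of_dom computes_of_leave dnc_jump)

/-- The value of a diagonal computation with a finite oracle. -/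
def hv (τ : List ℕ) (e : ℕ) : ℕ :=
  ((List.range τ.length).filterMap fun r =>
    ev e e r.unpair.2 (seg (fun z => τ.getD z 0) r.unpair.1)).headI

/-- The chain of diagonal values with a finite oracle. -/
def ch (τ : List ℕ) (e j : ℕ) : ℕ := (hv τ)^[j] e

/-- The number of bits of a part at level `d`. -/
def bb : ℕ → ℕ
  | 0 => 0
  | d + 1 => bb d + Nat.pair d (2 ^ bb d)

/-- Entry `j` of the list guessed at `x` by the level `d`. -/
def ent (d j x : ℕ) : ℕ :=
  (Denumerable.ofNat (List ℕ) (app d.unpair.2 d.unpair.2 x)).getD j 0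

/-- The part of `x` for the requirement `i`. -/
def P (i x : ℕ) : ℕ :=
  num ((List.range (bb i.unpair.1)).map fun p => bt (ent p.unpair.1 p.unpair.2 x) i)

/-- The active part: the visible length of the chain, cut at the number of parts. -/
def act (τ : List ℕ) (i : ℕ) : ℕ :=
  (List.range (2 ^ bb i.unpair.1 - 1)).findIdx fun j =>
    decide (¬ cv τ (ch τ i.unpair.2 j) (ch τ i.unpair.2 j))

def inA (τ : List ℕ) (x : ℕ) : Prop :=
  ∃ i < τ.length, P i x = act τ i ∧
    (∀ i' < τ.length, i.unpair.1 < i'.unpair.1 → ¬ P i' x = act τ i') ∧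
    ¬ i.unpair.1.unpair.1 = 0

instance (τ : List ℕ) (x : ℕ) : Decidable (inA τ x) := by unfold inA; infer_instance

/-- The two-colouring. -/
def AA : Set ℕ := {x | inA (seg (chi (jump ∅)) (ep x)) x}

section prim
variable {α : Type*} [Primcodable α]

@[fun_prop] theorem pr_hv {τ : α → List ℕ} {e : α → ℕ} (hτ : Primrec τ) (he : Primrec e) :
    Primrec fun a => hv (τ a) (e a) := by
  unfold hv seg
  refine Primrec.list_headI.comp (Primrec.listFilterMap (by fun_prop) ?_)
  change Primrec fun a : α × ℕ => _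
  fun_prop

@[fun_prop] theorem pr_ch {τ : α → List ℕ} {e j : α → ℕ} (hτ : Primrec τ) (he : Primrec e)
    (hj : Primrec j) : Primrec fun a => ch (τ a) (e a) (j a) :=
  Primrec.nat_iterate (h := fun a y => hv (τ a) y) hj he
    (show Primrec fun a : α × ℕ => hv (τ a.1) a.2 by fun_prop)

@[fun_prop] theorem pr_bb {d : α → ℕ} (hd : Primrec d) : Primrec fun a => bb (d a) := by
  have h : Primrec fun a : α × (ℕ × ℕ) => a.2.2 + Nat.pair a.2.1 (2 ^ a.2.2) := by fun_prop
  refine (Primrec.nat_rec' hd (Primrec.const 0) h.to₂).of_eq fun z => ?_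
  induction d z with
  | zero => rfl
  | succ m ih => simp only [bb, ← ih]

@[fun_prop] theorem pr_ent {d j x : α → ℕ} (hd : Primrec d) (hj : Primrec j) (hx : Primrec x) :
    Primrec fun z => ent (d z) (j z) (x z) := by
  unfold ent
  fun_prop

@[fun_prop] theorem pr_P {i x : α → ℕ} (hi : Primrec i) (hx : Primrec x) :
    Primrec fun z => P (i z) (x z) :=
  D.pr_num (pr_map (by fun_prop)
    (show Primrec fun a : α × ℕ => bt (ent a.2.unpair.1 a.2.unpair.2 (x a.1)) (i a.1) by fun_prop))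

@[fun_prop] theorem pr_act {τ : α → List ℕ} {i : α → ℕ} (hτ : Primrec τ) (hi : Primrec i) :
    Primrec fun a => act (τ a) (i a) := by
  unfold act
  refine Primrec.list_findIdx (by fun_prop) ?_
  exact PrimrecPred.decide (p := fun a : α × ℕ =>
    ¬ cv (τ a.1) (ch (τ a.1) (i a.1).unpair.2 a.2) (ch (τ a.1) (i a.1).unpair.2 a.2))
    (pp_cv (by fun_prop) (by fun_prop) (by fun_prop)).not

theorem pp_inA {τ : α → List ℕ} {x : α → ℕ} (hτ : Primrec τ) (hx : Primrec x) :
    PrimrecPred fun a => inA (τ a) (x a) :=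
  pp_ex_lt (R := fun a i => P i (x a) = act (τ a) i ∧
      (∀ i' < (τ a).length, i.unpair.1 < i'.unpair.1 → ¬ P i' (x a) = act (τ a) i') ∧
      ¬ i.unpair.1.unpair.1 = 0)
    (by fun_prop) ((pp_eq (by fun_prop) (by fun_prop)).and
      ((pp_all_lt (R := fun (a : α × ℕ) i' =>
          a.2.unpair.1 < i'.unpair.1 → ¬ P i' (x a.1) = act (τ a.1) i')
        (by fun_prop) (pp_imp (pp_lt (by fun_prop) (by fun_prop))
          (pp_eq (by fun_prop) (by fun_prop)).not)).and
      (pp_eq (by fun_prop) (by fun_prop)).not))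

end prim

theorem computes_AA : RecIn (chi (jump ∅)) (chi AA) := by
  refine (rseg (RecIn.oracle (o := chi (jump ∅)))
    (H := fun x τ => if inA (seg (fun z => τ.getD z 0) (epo τ x)) x then 1 else 0)
    (Primrec.ite (pp_inA (by unfold seg; fun_prop) (by fun_prop)) (by fun_prop) (by fun_prop))
    (b := fun x => x) (by fun_prop)).of_eq fun x => ?_
  change (if inA (seg _ (ep x)) x then 1 else 0) = _
  rw [seg_seg (ep_le x)]
  split_ifs with h
  · exact (chi_eq_one.2 h).symm
  · exact (chi_eq_zero.2 h).symm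

theorem bb_mono : Monotone bb := monotone_nat_of_le_succ fun d => by simp [bb]

theorem pos_lt {d d' j : ℕ} (h : d < d') (hj : j < 2 ^ bb d) : Nat.pair d j < bb d' := by
  have h1 := bb_mono (show d + 1 ≤ d' from h)
  have h2 := Nat.pair_lt_pair_right d hj
  simp only [bb] at h1
  omega

theorem bits_lt (i x : ℕ) : ∀ b ∈ (List.range (bb i.unpair.1)).map
    fun p => bt (ent p.unpair.1 p.unpair.2 x) i, b < 2 :=
  D.map_bt_lt _ (fun p => ent p.unpair.1 p.unpair.2 x) i

theorem P_lt (i x : ℕ) : P i x < 2 ^ bb i.unpair.1 := by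
  simpa [P] using num_lt (bits_lt i x)

theorem bt_P {i d j : ℕ} (x : ℕ) (h : d < i.unpair.1) (hj : j < 2 ^ bb d) :
    bt (P i x) (Nat.pair d j) = bt (ent d j x) i := by
  rw [P, bt_num (bits_lt i x)]
  simp [pos_lt h hj]

/-- All labels in the active part: the required side is met. -/
theorem hit {τ : List ℕ} {i : ℕ} {S : Set ℕ} (hi : i < τ.length)
    (hE : ∀ g < 2 ^ τ.length, ∃ x ∈ S, P i x = act τ i ∧ ent i.unpair.1 (act τ i) x = g) :
    ∃ x ∈ S, (inA τ x ↔ ¬ i.unpair.1.unpair.1 = 0) := by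
  obtain ⟨g, hg, hg'⟩ := exists_bits
    (fun r => 1 - bt (act τ r) (Nat.pair i.unpair.1 (act τ i))) (fun r => by omega) τ.length
  obtain ⟨x, hx, g1, g2⟩ := hE g hg
  have h5 : ∀ i' < τ.length, i.unpair.1 < i'.unpair.1 → ¬ P i' x = act τ i' := by
    intro i' h1 h2 h3
    have h4 := hg' i' h1
    rw [← g2, ← bt_P x h2 (g1 ▸ P_lt i x), h3] at h4
    have := bt_lt (act τ i') (Nat.pair i.unpair.1 (act τ i))
    omega
  refine ⟨x, hx, ?_, fun h6 => ⟨i, hi, g1, h5, h6⟩⟩
  rintro ⟨v, r1, r2, r3, r4⟩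
  rcases lt_trichotomy v.unpair.1 i.unpair.1 with h6 | h6 | h6
  · exact absurd g1 (r3 i hi h6)
  · rwa [h6] at r4
  · exact absurd r2 (h5 v r1 h6)

/-- Every label occurs infinitely often on `H` in the part `j`. -/
def Rich (H : Set ℕ) (i j : ℕ) : Prop :=
  ∀ g y, ∃ x ∈ H, y ≤ x ∧ P i x = j ∧ ent i.unpair.1 j x = g

theorem exists_rich {H : Set ℕ} {i : ℕ}
    (h : ∀ w y, ∃ x ∈ H, y ≤ x ∧ app i.unpair.1.unpair.2 i.unpair.1.unpair.2 x = w) :
    ∃ j < 2 ^ bb i.unpair.1, Rich H i j := by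
  by_contra h1
  have h2 : ∀ j, ∃ g y, j < 2 ^ bb i.unpair.1 →
      ∀ x ∈ H, y ≤ x → P i x = j → ¬ ent i.unpair.1 j x = g := by
    intro j
    by_contra h3
    push Not at h3
    exact h1 ⟨j, (h3 0 0).1, fun g y => (h3 g y).2⟩
  choose K Y hK using h2
  obtain ⟨x, x1, x2, x3⟩ := h (Encodable.encode ((List.range (2 ^ bb i.unpair.1)).map K))
    ((Finset.range (2 ^ bb i.unpair.1)).sup Y)
  refine hK (P i x) (P_lt i x) x x1
    ((Finset.le_sup (Finset.mem_range.2 (P_lt i x))).trans x2) rfl ?_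
  rw [ent, x3]
  simp [P_lt]

/-- If the final active part is rich, then `H` computes the halting set. -/
theorem win {H : Set ℕ} {i j : ℕ} (hs : ∀ x ∈ H, ¬ (x ∈ AA ↔ ¬ i.unpair.1.unpair.1 = 0))
    (hj : Rich H i j) (h : ∀ᶠ k in atTop, act (seg (chi (jump ∅)) k) i = j) :
    RecIn (chi H) (chi (jump ∅)) := by
  obtain ⟨f, hf, hf'⟩ := recIn_search_seg (p := chi H)
    (R := fun t s τ => t ≤ s ∧ ∀ g < 2 ^ t, ∃ x < s, t ≤ x ∧ τ.getD x 0 = 1 ∧
      P i x = j ∧ ent i.unpair.1 j x = g)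
    ((pp_le (by fun_prop) (by fun_prop)).and (pp_all_lt (by fun_prop)
      (pp_ex_lt (by fun_prop) ((pp_le (by fun_prop) (by fun_prop)).and
        ((pp_eq (by fun_prop) (by fun_prop)).and ((pp_eq (by fun_prop) (by fun_prop)).and
          (pp_eq (by fun_prop) (by fun_prop)))))))) (by
      intro t
      have h1 : ∀ᶠ s in atTop, ∀ g ∈ Finset.range (2 ^ t), ∃ x < s, t ≤ x ∧
          (seg (chi H) s).getD x 0 = 1 ∧ P i x = j ∧ ent i.unpair.1 j x = g := by
        refine (eventually_all_finset _).2 fun g _ => ?_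
        obtain ⟨x, x1, x2, x3⟩ := hj g t
        exact (eventually_gt_atTop x).mono fun s hs =>
          ⟨x, hs, x2, by rwa [seg_getD hs, chi_eq_one], x3⟩
      obtain ⟨s, s1, s2⟩ := ((eventually_ge_atTop t).and h1).exists
      exact ⟨s, s1, fun g hg => s2 g (Finset.mem_range.2 hg)⟩)
  refine computes_of_leave hf ?_
  filter_upwards [ep_lim.eventually h, ep_lim.eventually_gt_atTop i] with t t1 t2
  refine ⟨(hf' t).1, not_le.1 fun t3 => ?_⟩
  obtain ⟨x, ⟨x1, x2⟩, x3⟩ := hit (τ := seg (chi (jump ∅)) (ep t)) (i := i)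
    (S := {x | x ∈ H ∧ ep x = ep t}) (by rwa [seg_length]) fun g hg => by
      rw [seg_length] at hg
      obtain ⟨x, x1, x2, x3, x4⟩ := (hf' t).2 g
        (lt_of_lt_of_le hg (Nat.pow_le_pow_right (by norm_num) (ep_le t)))
      rw [seg_getD x1, chi_eq_one] at x3
      rw [t1]
      exact ⟨x, ⟨x3, le_antisymm ((ep_mono x1.le).trans t3) (ep_mono x2)⟩, x4⟩
  exact hs x x1 (by rw [← x3, ← x2]; rfl)

/-- `y` is the `j`-th member of the chain of diagonal values that starts at `e`. -/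
def Ch (p : ℕ → ℕ) (e : ℕ) : ℕ → ℕ → Prop
  | 0, y => y = e
  | j + 1, u => ∃ y, Ch p e j y ∧ u ∈ Phi p y y

theorem hv_eq {p : ℕ → ℕ} {k y v : ℕ} (h : v ∈ Phi p y y) (hc : cv (seg p k) y y) :
    hv (seg p k) y = v := by
  obtain ⟨r0, h1, h2⟩ := mem_Phi.1 h
  obtain ⟨r, hr, h3⟩ := cv_seg.1 hc
  have h4 : r0 ≤ r := not_lt.1 fun h5 => by simp [h2 r h5] at h3
  have h5 : ∀ m ≤ r0, seg (fun z => (seg p k).getD z 0) m.unpair.1 = seg p m.unpair.1 :=
    fun m hm => seg_seg ((Nat.unpair_left_le m).trans (by omega))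
  unfold hv
  rw [seg_length]
  exact headI_filterMap (by rw [h5 r0 le_rfl]; exact h1)
    (fun m hm => by rw [h5 m hm.le]; exact h2 m hm) (by omega)

theorem ch_succ (τ : List ℕ) (e j : ℕ) : ch τ e (j + 1) = hv τ (ch τ e j) :=
  Function.iterate_succ_apply' _ _ _

theorem ch_ev {p : ℕ → ℕ} {e j y : ℕ} (h : Ch p e j y) : ∀ᶠ k in atTop,
    (∀ j' < j, cv (seg p k) (ch (seg p k) e j') (ch (seg p k) e j')) ∧ ch (seg p k) e j = y := by
  induction j generalizing y with
  | zero => exact Eventually.of_forall fun k => ⟨fun _ h1 => absurd h1 (by omega), h.symm⟩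
  | succ j ih =>
    obtain ⟨y', h1, h2⟩ := h
    filter_upwards [ih h1, cv_of_dom (Part.dom_iff_mem.2 ⟨y, h2⟩)] with k k1 k2
    refine ⟨fun j' hj => ?_, by rw [ch_succ, k1.2, hv_eq h2 k2]⟩
    rcases Nat.lt_succ_iff_lt_or_eq.1 hj with h3 | h3
    · exact k1.1 j' h3
    · rw [h3, k1.2]
      exact k2

theorem ch_sound {p : ℕ → ℕ} {e j k : ℕ}
    (h : ∀ j' < j, cv (seg p k) (ch (seg p k) e j') (ch (seg p k) e j')) :
    Ch p e j (ch (seg p k) e j) := by
  induction j with
  | zero => rfl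
  | succ j ih =>
    refine ⟨_, ih fun j' hj => h j' (by omega), ?_⟩
    obtain ⟨v, hv'⟩ := Part.dom_iff_mem.1 (dom_of_cv (h j (by omega)))
    rw [ch_succ, hv_eq hv' (h j (by omega))]
    exact hv'

theorem act_ev {p : ℕ → ℕ} {i j y : ℕ} (h : Ch p i.unpair.2 j y) (hj : j ≤ 2 ^ bb i.unpair.1 - 1)
    (h' : j = 2 ^ bb i.unpair.1 - 1 ∨ ¬ (Phi p y y).Dom) :
    ∀ᶠ k in atTop, act (seg p k) i = j := by
  filter_upwards [ch_ev h] with k hk
  refine le_antisymm ?_ (not_lt.1 fun h1 => ?_)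
  · rcases h' with h1 | h1
    · rw [h1]
      exact find_le _ _
    · refine not_lt.1 fun h2 => h1 ?_
      have h3 := not_not.1 (of_decide_eq_false (find_min h2))
      rw [hk.2] at h3
      exact dom_of_cv h3
  · exact of_decide_eq_true (find_spec (lt_of_lt_of_le h1 hj)) (hk.1 _ h1)

/-- The chain argument: enumerable proper subsets of a fixed finite set that contain the cut length
of the chain give a DNC function. -/
theorem chain {Z κ q : ℕ → ℕ} (hκ : RecIn Z κ) (hq : RecIn Z q) (c : ℕ)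
    (h1 : ∀ e, ∃ j ≤ c, ¬ ∃ m, m.unpair.1 = Nat.pair e j ∧ q m = 0)
    (h2 : ∀ e j y, Ch κ e j y → j ≤ c → (j = c ∨ ¬ (Phi κ y y).Dom) →
      ∃ m, m.unpair.1 = Nat.pair e j ∧ q m = 0) :
    ∃ f, RecIn Z f ∧ ∀ e, f e ∉ Phi κ e e := by
  by_contra hno
  push Not at hno
  have claim : ∀ j ≤ c, ∀ y, ∃ e, Ch κ e j y ∧
      ∀ j' < j, ∃ m, m.unpair.1 = Nat.pair e j' ∧ q m = 0 := by
    intro j
    induction j with
    | zero => exact fun _ y => ⟨y, rfl, fun _ h => absurd h (by omega)⟩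
    | succ j ih =>
      intro hj y
      have hs : ∀ w : ℕ, seg (fun z => ((seg (fun n => Nat.pair (κ n) (q n)) w).getD z 0).unpair.1)
          w.unpair.2 = seg κ w.unpair.2 := fun w => seg_congr fun z hz => by
        rw [seg_getD (lt_of_lt_of_le hz (Nat.unpair_right_le w)), Nat.unpair_pair]
      have hm : ∀ w a : ℕ, (∃ m < w, m.unpair.1 = a ∧
          ((seg (fun n => Nat.pair (κ n) (q n)) w).getD m 0).unpair.2 = 0) ↔
          ∃ m < w, m.unpair.1 = a ∧ q m = 0 := fun w a =>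
        exists_congr fun m => and_congr_right fun h => by rw [seg_getD h, Nat.unpair_pair]
      obtain ⟨f, hf, hf'⟩ := recIn_search_seg (p := fun n => Nat.pair (κ n) (q n))
        (R := fun y' w τ =>
          (∀ j' < j, cv (seg (fun z => (τ.getD z 0).unpair.1) w.unpair.2)
            (ch (seg (fun z => (τ.getD z 0).unpair.1) w.unpair.2) w.unpair.1 j')
            (ch (seg (fun z => (τ.getD z 0).unpair.1) w.unpair.2) w.unpair.1 j')) ∧
          ch (seg (fun z => (τ.getD z 0).unpair.1) w.unpair.2) w.unpair.1 j = y' ∧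
          (∀ j' < j, ∃ m < w, m.unpair.1 = Nat.pair w.unpair.1 j' ∧ (τ.getD m 0).unpair.2 = 0) ∧
          ((∃ m < w, m.unpair.1 = Nat.pair w.unpair.1 j ∧ (τ.getD m 0).unpair.2 = 0) ∨
            cv (seg (fun z => (τ.getD z 0).unpair.1) w.unpair.2) y' y'))
        (by
          refine PrimrecPred.and ?_ (PrimrecPred.and ?_ (PrimrecPred.and ?_ (PrimrecPred.or ?_ ?_)))
          · refine pp_all_lt (by fun_prop) ?_
            exact pp_cv (by unfold seg; fun_prop) (by unfold seg; fun_prop)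
              (by unfold seg; fun_prop)
          · exact pp_eq (by unfold seg; fun_prop) (by fun_prop)
          · exact pp_all_lt (by fun_prop) (pp_ex_lt (by fun_prop)
              ((pp_eq (by fun_prop) (by fun_prop)).and (pp_eq (by fun_prop) (by fun_prop))))
          · exact pp_ex_lt (by fun_prop)
              ((pp_eq (by fun_prop) (by fun_prop)).and (pp_eq (by fun_prop) (by fun_prop)))
          · exact pp_cv (by unfold seg; fun_prop) (by fun_prop) (by fun_prop)) (by
          intro y'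
          obtain ⟨e, e1, e2⟩ := ih (by omega) y'
          have hb : ∀ a, (∃ m, m.unpair.1 = a ∧ q m = 0) →
              ∀ᶠ k in atTop, ∃ m < Nat.pair e k, m.unpair.1 = a ∧ q m = 0 := by
            rintro a ⟨m, m1⟩
            exact (eventually_gt_atTop m).mono fun k hk =>
              ⟨m, lt_of_lt_of_le hk (Nat.right_le_pair e k), m1⟩
          have h3 : ∀ᶠ k in atTop, ∀ j' ∈ Finset.range j,
              ∃ m < Nat.pair e k, m.unpair.1 = Nat.pair e j' ∧ q m = 0 :=
            (eventually_all_finset _).2 fun j' hj' => hb _ (e2 j' (Finset.mem_range.1 hj'))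
          have h4 : ∀ᶠ k in atTop, (∃ m < Nat.pair e k, m.unpair.1 = Nat.pair e j ∧ q m = 0) ∨
              cv (seg κ k) y' y' := by
            by_cases h5 : (Phi κ y' y').Dom
            · exact (cv_of_dom h5).mono fun k hk => Or.inr hk
            · exact (hb _ (h2 e j y' e1 (by omega) (Or.inr h5))).mono fun k hk => Or.inl hk
          obtain ⟨k, ⟨k1, k2⟩, k3⟩ := (((ch_ev e1).and h3).and h4).exists
          refine ⟨Nat.pair e k, ?_⟩
          simp only [hs, hm]
          simp only [Nat.unpair_pair]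
          exact ⟨k1.1, k1.2, fun j' hj' => k2 j' (Finset.mem_range.2 hj'), k3⟩)
      simp only [hs, hm] at hf'
      have hg : RecIn Z fun m => if cv (seg κ m.unpair.2.unpair.2) m.unpair.1 m.unpair.1 then
          hv (seg κ m.unpair.2.unpair.2) m.unpair.1 + 1 else y :=
        rseg hκ (H := fun m τ => if cv τ m.unpair.1 m.unpair.1 then hv τ m.unpair.1 + 1 else y)
          (Primrec.ite (pp_cv (by fun_prop) (by fun_prop) (by fun_prop)) (by fun_prop)
            (by fun_prop)) (b := fun m => m.unpair.2.unpair.2) (by fun_prop)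
      obtain ⟨y', hy⟩ := hno _ (hg.comp ((RecIn.of_primrec Primrec.id).pair
        (rtrans (hκ.pair hq) hf)))
      simp only [id, Nat.unpair_pair] at hy
      obtain ⟨a1, a2, a3, a4⟩ := hf' y'
      split_ifs at hy with h5
      · have := hv_eq hy h5
        omega
      · have a5 := ch_sound a1
        rw [a2] at a5
        refine ⟨(f y').unpair.1, ⟨y', a5, hy⟩, fun j' hj' => ?_⟩
        rcases Nat.lt_succ_iff_lt_or_eq.1 hj' with h6 | h6
        · obtain ⟨m, -, m2⟩ := a3 j' h6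
          exact ⟨m, m2⟩
        · obtain ⟨m, -, m2⟩ := a4.resolve_right h5
          exact ⟨m, h6 ▸ m2⟩
  obtain ⟨e, e1, e2⟩ := claim c le_rfl 0
  obtain ⟨j, j1, j2⟩ := h1 e
  rcases j1.lt_or_eq with h3 | h3
  · exact j2 (e2 j h3)
  · exact j2 (h3 ▸ h2 e c 0 e1 le_rfl (Or.inl rfl))

theorem dnc {H : Set ℕ} (hH : H.Infinite) (h : H ⊆ AA ∨ H ⊆ AAᶜ) :
    ∃ f, RecIn (chi (jump H)) f ∧ ∀ e, f e ∉ Phi (chi (jump ∅)) e e := by
  by_contra hno
  obtain ⟨sd, hsd⟩ : ∃ sd : ℕ, ∀ x ∈ H, ¬ (x ∈ AA ↔ ¬ sd = 0) := by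
    rcases h with h | h
    · exact ⟨0, fun x hx h' => h'.1 (h hx) rfl⟩
    · exact ⟨1, fun x hx h' => h hx (h'.2 one_ne_zero)⟩
  obtain ⟨n, hn⟩ : ∃ n, ∀ w y, ∃ x ∈ H, y ≤ x ∧ app n n x = w := by
    by_contra h1
    push Not at h1
    obtain ⟨f, hf, hf'⟩ := search_neg pp_thD (X := H) fun n => by
      obtain ⟨w, y, hw⟩ := h1 n
      exact ⟨Nat.pair w y, thD_iff.2 (by simpa using hw)⟩
    exact hno ⟨fun n => (f n).unpair.1,
      (RecIn.of_primrec (f := fun z => z.unpair.1) (by fun_prop)).comp hf,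
      fun n => not_mem_Phi hH (thD_iff.1 (hf' n))⟩
  have h4 : RecIn (chi H) (chi ∅) :=
    (RecIn.of_primrec (Primrec.const 0)).of_eq fun n => (chi_eq_zero.2 (by simp)).symm
  have hq := sigma1 (rmap (RecIn.of_primrec Primrec.id)
    ((RecIn.oracle (o := chi H)).comp (RecIn.of_primrec (f := fun z => z.unpair.2) (by fun_prop)))
    (h := fun z v => if v = 1 ∧ z.unpair.1.unpair.2.unpair.2 ≤ z.unpair.2 ∧
      P (Nat.pair (Nat.pair sd n) z.unpair.1.unpair.1.unpair.1) z.unpair.2 =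
        z.unpair.1.unpair.1.unpair.2 ∧
      ent (Nat.pair sd n) z.unpair.1.unpair.1.unpair.2 z.unpair.2 = z.unpair.1.unpair.2.unpair.1
      then 0 else 1)
    (Primrec.ite ((pp_eq (by fun_prop) (by fun_prop)).and ((pp_le (by fun_prop) (by fun_prop)).and
      ((pp_eq (by fun_prop) (by fun_prop)).and (pp_eq (by fun_prop) (by fun_prop)))))
      (by fun_prop) (by fun_prop)))
  generalize hQ : chi {z | ∃ s, _ = 0} = q at hq
  have key : ∀ e j, (∃ m, m.unpair.1 = Nat.pair e j ∧ q m = 0) ↔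
      ¬ Rich H (Nat.pair (Nat.pair sd n) e) j := by
    intro e j
    simp only [← hQ, chi_eq_zero, Set.mem_ofPred_eq, id, Nat.unpair_pair, ite_eq_left_iff,
      one_ne_zero, imp_false, not_not, chi_eq_one, Rich]
    constructor
    · rintro ⟨m, m1, m2⟩ h5
      obtain ⟨x, x1, x2⟩ := h5 m.unpair.2.unpair.1 m.unpair.2.unpair.2
      exact m2 ⟨x, x1, by simpa only [m1, Nat.unpair_pair] using x2⟩
    · intro h5
      push Not at h5
      obtain ⟨g, y, h6⟩ := h5
      refine ⟨Nat.pair (Nat.pair e j) (Nat.pair g y), by simp, ?_⟩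
      rintro ⟨x, x1, x2⟩
      simp only [Nat.unpair_pair] at x2
      exact h6 x x1 x2.1 x2.2.1 x2.2.2
  refine hno (chain (D.jump_mono h4) hq (2 ^ bb (Nat.pair sd n) - 1) (fun e => ?_)
    fun e j y c1 c2 c3 => ?_)
  · obtain ⟨j, j1, j2⟩ := exists_rich (H := H) (i := Nat.pair (Nat.pair sd n) e) (by simpa using hn)
    simp only [Nat.unpair_pair] at j1
    exact ⟨j, by omega, fun h5 => (key e j).1 h5 j2⟩
  · refine (key e j).2 fun h5 => ?_
    obtain ⟨f, hf, hf'⟩ := dnc_jump (jump ∅)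
    exact hno ⟨f, rtrans (D.jump_mono (win (by simpa using hsd) h5
      (act_ev (y := y) (by simpa using c1) (by simpa using c2) (by simpa using c3)))) hf, hf'⟩

end Pool.Agent.MP_ac9d16_lc.F
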